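import Pool.Agent.Q40.RP.Fra

/-!
# The blowing-up of a quasi-regular system of parameters
-/

set_option autoImplicit false
set_option linter.unusedVariables false
set_option linter.unusedSectionVars false

universe u v

namespace Pool.Agent.Q40.RP

open MvPolynomial

section expo

variable {n : ℕ}

/-- The exponents of a homogeneous polynomial and of its dehomogenization. -/
def Rel (j : Fin n) (N : ℕ) (δ γ : Fin n →₀ ℕ) : Prop :=
  (∀ i, i ≠ j → δ i = γ i) ∧ Finsupp.degree δ = N + γ j

lemma degree_update (γ : Fin n →₀ ℕ) (j : Fin n) (m : ℕ) :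
    Finsupp.degree (γ.update j m) + γ j = Finsupp.degree γ + m := by
  classical
  rw [Finsupp.degree_eq_sum, Finsupp.degree_eq_sum, ← Finset.add_sum_erase _ _ (Finset.mem_univ j),
    ← Finset.add_sum_erase (s := Finset.univ) (f := fun i => γ i) (h := Finset.mem_univ j)]
  have h1 : ∑ i ∈ Finset.univ.erase j, (γ.update j m) i = ∑ i ∈ Finset.univ.erase j, γ i := by
    refine Finset.sum_congr rfl fun i hi => ?_
    rw [Finsupp.coe_update, Function.update_of_ne (Finset.ne_of_mem_erase hi)]
  rw [h1, Finsupp.coe_update, Function.update_self]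
  ring

lemma le_degree' (γ : Fin n →₀ ℕ) (j : Fin n) : γ j ≤ Finsupp.degree γ := by
  rw [Finsupp.degree_eq_sum]
  exact Finset.single_le_sum (f := fun i => γ i) (fun _ _ => Nat.zero_le _) (Finset.mem_univ j)

lemma Rel.unique_left {j : Fin n} {N : ℕ} {δ δ' γ : Fin n →₀ ℕ} (h : Rel j N δ γ)
    (h' : Rel j N δ' γ) : δ = δ' := by
  classical
  have h1 : δ = δ'.update j (δ j) := by
    ext i
    by_cases hi : i = j
    · subst hi
      rw [Finsupp.coe_update, Function.update_self]
    · rw [Finsupp.coe_update, Function.update_of_ne hi, h.1 i hi, h'.1 i hi]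
  have h2 := degree_update δ' j (δ j)
  rw [← h1, h.2, h'.2] at h2
  have h3 : δ' j = δ j := by omega
  rw [h1, ← h3]
  exact (Finsupp.update_self δ' j)

lemma Rel.unique_right {j : Fin n} {N : ℕ} {δ γ γ' : Fin n →₀ ℕ} (h : Rel j N δ γ)
    (h' : Rel j N δ γ') : γ = γ' := by
  ext i
  by_cases hi : i = j
  · subst hi
    have h1 := h.2
    have h2 := h'.2
    omega
  · rw [← h.1 i hi, ← h'.1 i hi]

/-- Homogenization of exponents. -/
lemma rel_up {j : Fin n} {N : ℕ} {γ : Fin n →₀ ℕ} (hN : Finsupp.degree γ ≤ N) :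
    Rel j N (γ.update j (N + 2 * γ j - Finsupp.degree γ)) γ := by
  refine ⟨fun i hi => ?_, ?_⟩
  · rw [Finsupp.coe_update, Function.update_of_ne hi]
  · have h1 := degree_update γ j (N + 2 * γ j - Finsupp.degree γ)
    omega

/-- Dehomogenization of exponents. -/
lemma rel_down {j : Fin n} {m : ℕ} {δ : Fin n →₀ ℕ} (hm : m ≤ Finsupp.degree δ) :
    Rel j m δ (δ.update j (Finsupp.degree δ - m)) := by
  refine ⟨fun i hi => ?_, ?_⟩
  · rw [Finsupp.coe_update, Function.update_of_ne hi]
  · rw [Finsupp.coe_update, Function.update_self]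
    omega

end expo

section tr

variable {R : Type v} [CommRing R] {n : ℕ}

/-- Change of the exponents. -/
noncomputable def tr (φ : (Fin n →₀ ℕ) → (Fin n →₀ ℕ)) (E : MvPolynomial (Fin n) R) :
    MvPolynomial (Fin n) R := ∑ γ ∈ E.support, monomial (φ γ) (coeff γ E)

lemma coeff_tr {φ : (Fin n →₀ ℕ) → (Fin n →₀ ℕ)} {E : MvPolynomial (Fin n) R}
    {D : Set (Fin n →₀ ℕ)} (hD : ∀ γ, coeff γ E ≠ 0 → γ ∈ D) (hφ : Set.InjOn φ D)
    {γ : Fin n →₀ ℕ} (hγ : γ ∈ D) : coeff (φ γ) (tr φ E) = coeff γ E := by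
  classical
  unfold tr
  rw [coeff_sum]
  by_cases h0 : coeff γ E = 0
  · rw [h0]
    refine Finset.sum_eq_zero fun γ' hγ' => ?_
    rw [coeff_monomial]
    split_ifs with h1
    · have h2 := hφ (hD _ (mem_support_iff.1 hγ')) hγ h1
      rw [h2, h0]
    · rfl
  · rw [Finset.sum_eq_single γ]
    · rw [coeff_monomial, if_pos rfl]
    · intro γ' hγ' hne
      rw [coeff_monomial, if_neg]
      intro h1
      exact hne (hφ (hD _ (mem_support_iff.1 hγ')) hγ h1)
    · intro h1
      exact absurd (mem_support_iff.2 h0) h1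

lemma coeff_tr_zero {φ : (Fin n →₀ ℕ) → (Fin n →₀ ℕ)} {E : MvPolynomial (Fin n) R}
    {δ : Fin n →₀ ℕ} (h : ∀ γ, coeff γ E ≠ 0 → φ γ ≠ δ) : coeff δ (tr φ E) = 0 := by
  classical
  unfold tr
  rw [coeff_sum]
  refine Finset.sum_eq_zero fun γ hγ => ?_
  rw [coeff_monomial, if_neg (h γ (mem_support_iff.1 hγ))]

end tr

section blw

variable {K : Type u} [Field K] {k : Type v} [Field k] {n : ℕ}

/-- The parameters `x'` of the blowing-up at the origin of the chart. -/
structure Blw (x x' : Fin n → K) (j : Fin n) : Prop where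
  eq : x' j = x j
  mul : ∀ i, i ≠ j → x i = x j * x' i

variable {Q : Subring K} {ρ : Q →+* k} {x x' : Fin n → K} {j : Fin n}

lemma Blw.prod (hb : Blw x x' j) {N : ℕ} {δ γ : Fin n →₀ ℕ} (h : Rel j N δ γ) :
    ∏ i, x i ^ δ i = x j ^ N * ∏ i, x' i ^ γ i := by
  classical
  rw [← Finset.mul_prod_erase _ _ (Finset.mem_univ j),
    ← Finset.mul_prod_erase (s := Finset.univ) (f := fun i => x' i ^ γ i)
      (h := Finset.mem_univ j), hb.eq]
  have h1 : ∏ i ∈ Finset.univ.erase j, x i ^ δ i =
      x j ^ (∑ i ∈ Finset.univ.erase j, δ i) * ∏ i ∈ Finset.univ.erase j, x' i ^ γ i := by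
    rw [← Finset.prod_pow_eq_pow_sum, ← Finset.prod_mul_distrib]
    refine Finset.prod_congr rfl fun i hi => ?_
    rw [hb.mul i (Finset.ne_of_mem_erase hi), mul_pow, h.1 i (Finset.ne_of_mem_erase hi)]
  rw [h1, ← mul_assoc, ← mul_assoc, ← pow_add, ← pow_add]
  congr 2
  have h2 := h.2
  rw [Finsupp.degree_eq_sum, ← Finset.add_sum_erase _ _ (Finset.mem_univ j)] at h2
  exact h2

/-- Relations among the parameters of the blowing-up have coefficients in the maximal ideal. -/
theorem Fra.zero (h : Fra Q ρ x) (hb : Blw x x' j) {E : MvPolynomial (Fin n) Q}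
    (h0 : ev Q x' E = 0) {γ : Fin n →₀ ℕ} (hγ : γ j = 0) : ρ (coeff γ E) = 0 := by
  classical
  let N := E.totalDegree + Finsupp.degree γ
  let φ : (Fin n →₀ ℕ) → (Fin n →₀ ℕ) := fun γ => γ.update j (N + 2 * γ j - Finsupp.degree γ)
  let D : Set (Fin n →₀ ℕ) := {γ | Finsupp.degree γ ≤ N}
  have hφ : ∀ γ ∈ D, Rel j N (φ γ) γ := fun γ h => rel_up h
  have hinj : Set.InjOn φ D := by
    intro a ha b hb h
    have h1 := hφ a ha
    rw [h] at h1
    exact h1.unique_right (hφ b hb)
  have hD : ∀ γ, coeff γ E ≠ 0 → γ ∈ D := by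
    intro γ hγ
    have h1 : Finsupp.degree γ ≤ E.totalDegree := by
      have := le_totalDegree (mem_support_iff.2 hγ)
      rw [Finsupp.degree_apply]
      exact this
    exact h1.trans (Nat.le_add_right _ _)
  have hlow : Low N (tr φ E) := by
    intro δ hδ
    by_contra hlt
    apply hδ
    refine coeff_tr_zero fun γ' hγ' hδ' => hlt ?_
    rw [← hδ', (hφ γ' (hD γ' hγ')).2]
    exact Nat.le_add_right _ _
  have hev : ev Q x (tr φ E) = 0 := by
    unfold tr
    rw [map_sum]
    have h1 : ∑ γ ∈ E.support, ev Q x (monomial (φ γ) (coeff γ E)) = x j ^ N * ev Q x' E := by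
      rw [ev_sum, Finset.mul_sum]
      refine Finset.sum_congr rfl fun γ hγ => ?_
      rw [ev_monomial, hb.prod (hφ γ (hD γ (mem_support_iff.1 hγ)))]
      ring
    rw [h1, h0, mul_zero]
  have h1 := h.qr N _ hlow hev
  have hγD : γ ∈ D := Nat.le_add_left _ _
  by_contra hne
  have h2 := h1 (φ γ) (by rwa [coeff_map, coeff_tr hD hinj hγD])
  rw [(hφ γ hγD).2, hγ] at h2
  omega

/-- The coefficients in the maximal ideal are divisible by the exceptional parameter. -/
lemma Fra.dvd (h : Fra Q ρ x) (hb : Blw x x' j) {c : Q} (hc : ρ c = 0) :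
    ∃ D : MvPolynomial (Fin n) Q, (c : K) = x j * ev Q x' D := by
  classical
  obtain ⟨d, hd⟩ := (h.ker c).1 hc
  refine ⟨C (d j) + ∑ i ∈ Finset.univ.erase j, C (d i) * X i, ?_⟩
  rw [hd, ← Finset.add_sum_erase _ _ (Finset.mem_univ j), map_add, ev_C, map_sum, mul_add,
    Finset.mul_sum, mul_comm (d j : K)]
  congr 1
  refine Finset.sum_congr rfl fun i hi => ?_
  rw [map_mul, ev_C, ev_X, hb.mul i (Finset.ne_of_mem_erase hi)]
  ring

/-- Quasi-regularity of the parameters over the algebra of the chart. -/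
theorem Fra.qb (h : Fra Q ρ x) (hb : Blw x x' j) : ∀ (m : ℕ) (E : MvPolynomial (Fin n) Q),
    Low m E → ev Q x' E = 0 → Low (m + 1) (map ρ E) := by
  classical
  intro m
  induction m with
  | zero =>
    intro E _ h0 γ hγ
    rw [coeff_map] at hγ
    by_contra hlt
    have h1 : Finsupp.degree γ = 0 := by omega
    rw [Finsupp.degree_eq_zero_iff] at h1
    subst h1
    exact hγ (h.zero hb h0 (by simp))
  | succ m ih =>
    intro E hE h0
    have hE' : Low (m + 1) (map ρ E) := hE.map ρ
    set E1 := E.divMonomial (Finsupp.single j 1) with hE1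
    set E0 := E.modMonomial (Finsupp.single j 1) with hE0
    have hdec : X j * E1 + E0 = E := divMonomial_add_modMonomial_single E j
    have hle : ∀ γ : Fin n →₀ ℕ, Finsupp.single j 1 ≤ γ ↔ γ j ≠ 0 := by
      intro γ
      rw [Finsupp.single_le_iff, Nat.one_le_iff_ne_zero]
    have hE00 : ∀ γ, ρ (coeff γ E0) = 0 ∧ (coeff γ E0 ≠ 0 → m + 1 ≤ Finsupp.degree γ) := by
      intro γ
      by_cases hγ : γ j = 0
      · rw [hE0, coeff_modMonomial_of_not_le _ (by rw [hle]; exact fun h => h hγ)]
        exact ⟨h.zero hb h0 hγ, hE γ⟩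
      · rw [hE0, coeff_modMonomial_of_le _ ((hle γ).2 hγ), map_zero]
        exact ⟨rfl, fun h => absurd rfl h⟩
    choose d hd using fun γ => h.dvd hb (hE00 γ).1
    let G : MvPolynomial (Fin n) Q := ∑ γ ∈ E0.support, d γ * monomial γ 1
    have hG : Low (m + 1) G := Low.sum _ fun γ hγ =>
      (Low.monomial ((hE00 γ).2 (mem_support_iff.1 hγ)) 1).mul_left _
    have hGev : ev Q x' E0 = x j * ev Q x' G := by
      rw [ev_sum, map_sum, Finset.mul_sum]
      refine Finset.sum_congr rfl fun γ _ => ?_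
      rw [map_mul, ev_monomial, OneMemClass.coe_one, one_mul, hd γ]
      ring
    have hE1low : Low m E1 := by
      intro γ hγ
      rw [hE1, coeff_divMonomial] at hγ
      have h1 := hE _ hγ
      rw [map_add, Finsupp.degree_single] at h1
      omega
    have h1 : ev Q x' (E1 + G) = 0 := by
      have h2 : x j * ev Q x' (E1 + G) = 0 := by
        rw [map_add, mul_add, ← hGev, ← hb.eq, ← h0]
        have h3 := congrArg (ev Q x') hdec
        rw [map_add, map_mul, ev_X] at h3
        exact h3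
      exact (mul_eq_zero.1 h2).resolve_left (h.ne j)
    have h2 := ih (E1 + G) (hE1low.add (hG.mono (Nat.le_succ m))) h1
    intro γ hγ
    by_contra hlt
    have hd1 : Finsupp.degree γ = m + 1 := by
      have := hE' γ hγ
      omega
    rw [coeff_map] at hγ
    apply hγ
    by_cases hγj : γ j = 0
    · exact h.zero hb h0 hγj
    · obtain ⟨δ, hδ⟩ := exists_add_of_le ((hle γ).2 hγj)
      have hd2 : Finsupp.degree δ = m := by
        rw [hδ, map_add, Finsupp.degree_single] at hd1
        omega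
      have h3 : coeff γ E = coeff δ (E1 + G) - coeff δ G := by
        rw [coeff_add, add_sub_cancel_right, hE1, coeff_divMonomial, ← hδ]
      have h4 : coeff δ G = 0 := hG.coeff_eq_zero (by omega)
      have h5 : ρ (coeff δ (E1 + G)) = 0 := by
        have := h2.coeff_eq_zero (γ := δ) (by omega)
        rwa [coeff_map] at this
      rw [h3, h4, sub_zero, h5]

end blw

end Pool.Agent.Q40.RP
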