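import Pool.Agent.Q40.RP.St

/-!
# The number of the bad infinitely near points
-/

set_option autoImplicit false
set_option linter.unusedVariables false
set_option linter.unusedSectionVars false

universe u v

namespace Pool.Agent.Q40.RP

open MvPolynomial

section count

variable {K : Type u} [Field K] {k : Type v} [Field k] {n : ℕ}
  {O : Subring K} {ρ0 : O →+* k} {S : Finset O} {piv : (Fin n → O) → Fin n}

/-- The letters. -/
abbrev Lt (n : ℕ) {O : Subring K} (S : Finset O) : Type u := {c : Fin n → O // IsLt S c}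

instance (S : Finset O) : Finite (Lt n S) := by
  classical
  refine Finite.of_injective (β := ↥(Fintype.piFinset fun _ : Fin n => S))
    (fun c => ⟨c.1, Fintype.mem_piFinset.2 c.2.1⟩) ?_
  intro a b h
  exact Subtype.ext (Subtype.mk.inj h)

noncomputable instance (S : Finset O) : Fintype (Lt n S) := Fintype.ofFinite _

/-- The number of letters. -/
lemma card_Lt (h0 : (0 : O) ∈ S) : Fintype.card (Lt n S) = S.card ^ n - 1 := by
  classical
  have h1 : Fintype.card (Lt n S) = ((Fintype.piFinset fun _ : Fin n => S).erase 0).card := by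
    rw [← Fintype.card_coe]
    refine Fintype.card_congr
      ⟨fun c => ⟨c.1, Finset.mem_erase.2 ⟨c.2.2, Fintype.mem_piFinset.2 c.2.1⟩⟩,
        fun c => ⟨c.1, Fintype.mem_piFinset.1 (Finset.mem_of_mem_erase c.2),
          Finset.ne_of_mem_erase c.2⟩, fun c => rfl, fun c => rfl⟩
  have h2 : (0 : Fin n → O) ∈ Fintype.piFinset fun _ : Fin n => S :=
    Fintype.mem_piFinset.2 fun _ => h0
  rw [h1, Finset.card_erase_of_mem h2, Fintype.card_piFinset,
    Finset.prod_const, Finset.card_univ, Fintype.card_fin]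

/-- The sum of the multiplicities over the letters. -/
theorem sum_mult (hd : Dat O ρ0 S piv) (hn : 1 ≤ n) {F : MvPolynomial (Fin n) k} (hF : F ≠ 0)
    {m : ℕ} (hm : F.IsHomogeneous m) :
    ∑ c : Lt n S, mult F (fun i => ρ0 (c.1 i)) ≤ m * (S.card ^ (n - 1) - 1) := by
  classical
  have h1 := sz_hom (S.image ρ0) (Finset.mem_image.2 ⟨0, hd.zero, map_zero _⟩) hn hF hm
  rw [Finset.card_image_of_injOn hd.inj] at h1
  refine le_trans ?_ h1
  have hinj : Function.Injective fun c : Lt n S => fun i => ρ0 (c.1 i) := by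
    intro a b h
    apply Subtype.ext
    funext i
    exact hd.inj (a.2.1 i) (b.2.1 i) (congrFun h i)
  rw [← Finset.sum_image (f := mult F) (g := fun c : Lt n S => fun i => ρ0 (c.1 i))
    (s := Finset.univ) fun a _ b _ h => hinj h]
  refine Finset.sum_le_sum_of_subset ?_
  intro c hc
  obtain ⟨c, -, rfl⟩ := Finset.mem_image.1 hc
  refine Finset.mem_erase.2 ⟨?_, Fintype.mem_piFinset.2 fun i =>
    Finset.mem_image.2 ⟨_, c.2.1 i, rfl⟩⟩
  intro h0
  apply c.2.2
  funext i
  refine hd.inj (c.2.1 i) hd.zero ?_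
  exact (congrFun h0 i).trans (map_zero ρ0).symm

open Classical in
/-- The number of the bad words. -/
noncomputable def bad (piv : (Fin n → O) → Fin n) (S : Finset O) (s : Sta K n) (J : Set K)
    (l : ℕ) : ℕ :=
  ∑ w : Fin l → Lt n S, if Pr (run piv s (List.ofFn fun i => (w i).1)) J then 0 else 1

lemma bad_succ (s : Sta K n) (J : Set K) (l : ℕ) :
    bad piv S s J (l + 1) = ∑ c : Lt n S, bad piv S (nx piv s c.1) J l := by
  classical
  unfold bad
  rw [← Fintype.sum_prod_type']
  refine Fintype.sum_equiv (Fin.consEquiv (fun _ => Lt n S)).symm _ _ ?_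
  intro w
  have h1 : (List.ofFn fun i => (w i).1) = (w 0).1 :: List.ofFn fun i => (w (Fin.succ i)).1 :=
    List.ofFn_succ
  rw [h1]
  rfl

lemma bad_mono {s : Sta K n} {J J' : Set K} {l : ℕ}
    (h : ∀ w : Fin l → Lt n S, Pr (run piv s (List.ofFn fun i => (w i).1)) J' →
      Pr (run piv s (List.ofFn fun i => (w i).1)) J) : bad piv S s J l ≤ bad piv S s J' l := by
  classical
  unfold bad
  refine Finset.sum_le_sum fun w _ => ?_
  split_ifs with h1 h2 h2
  · exact le_rfl
  · exact Nat.zero_le _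
  · exact absurd (h w h2) h1
  · exact le_rfl

/-- The bound on the number of the bad words. -/
theorem bad_le (hd : Dat O ρ0 S piv) (hn : 1 ≤ n) : ∀ (l : ℕ) (s : Sta K n), Gd O ρ0 s →
    ∀ J : Set K, (∀ g ∈ J, g ∈ s.1) → ∀ f ∈ J, ∀ μ, ¬ Inp s.1 s.2 (μ + 1) f →
      bad piv S s J l ≤ μ * (S.card ^ (n - 1) - 1) ^ l := by
  classical
  intro l
  induction l with
  | zero =>
    intro s hs J hJ f hf μ hμ
    obtain ⟨hO, ρ, hfr, hρ⟩ := hs
    rw [pow_zero, mul_one]
    have h1 : bad piv S s J 0 = if Pr s J then 0 else 1 := by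
      unfold bad
      rw [Fintype.sum_unique]
      rfl
    rw [h1]
    split_ifs with h2
    · exact Nat.zero_le _
    · rw [Nat.one_le_iff_ne_zero]
      rintro rfl
      apply h2
      have h3 : ρ ⟨f, hJ f hf⟩ ≠ 0 := by
        intro h0
        apply hμ
        have h4 := hfr.inp_succ (m := 0) (F := C (⟨f, hJ f hf⟩ : s.1)) (low_zero _) (by
          intro γ hγ
          rw [Finsupp.degree_eq_zero_iff] at hγ
          rw [hγ, coeff_zero_C]
          exact h0)
        rwa [ev_C] at h4
      have h4 := hfr.inv _ h3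
      have hf0 : f ≠ 0 := by
        rintro rfl
        apply h3
        have : (⟨0, hJ 0 hf⟩ : s.1) = 0 := rfl
        rw [this, map_zero]
      refine ⟨f, hf, Mo.unit hf0 (hJ f hf) h4, fun g hg => ?_⟩
      rw [div_eq_mul_inv]
      exact s.1.mul_mem (hJ g hg) h4
  | succ l ih =>
    intro s hs J hJ f hf μ hμ
    obtain ⟨hO, ρ, hfr, hρ⟩ := id hs
    -- the minimal order
    have hex : ∃ m, ∃ g ∈ J, ¬ Inp s.1 s.2 (m + 1) g := ⟨μ, f, hf, hμ⟩
    obtain ⟨f0, hf0, hm1⟩ := Nat.find_spec hex
    have hm2 : Nat.find hex ≤ μ := Nat.find_min' hex ⟨f, hf, hμ⟩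
    have hm3 : ∀ g ∈ J, Inp s.1 s.2 (Nat.find hex) g := by
      intro g hg
      by_cases h0 : Nat.find hex = 0
      · rw [h0]
        exact Inp.zero (hJ g hg)
      · obtain ⟨m', hm'⟩ := Nat.exists_eq_succ_of_ne_zero h0
        rw [Nat.succ_eq_add_one] at hm'
        rw [hm']
        by_contra h1
        exact Nat.find_min hex (m := m') (by omega) ⟨g, hg, h1⟩
    set m := Nat.find hex with hm
    obtain ⟨F, hF, hFev⟩ := hm3 f0 hf0
    have hF0 : homogeneousComponent m (map ρ F) ≠ 0 := by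
      intro h0
      apply hm1
      rw [← hFev]
      refine hfr.inp_succ hF fun γ hγ => ?_
      have h1 := congrArg (coeff γ) h0
      rw [coeff_homogeneousComponent, if_pos hγ, coeff_map, coeff_zero] at h1
      exact h1
    rw [bad_succ]
    have hstep : ∀ c : Lt n S, bad piv S (nx piv s c.1) J l ≤
        mult (homogeneousComponent m (map ρ F)) (fun i => ρ0 (c.1 i)) *
          (S.card ^ (n - 1) - 1) ^ l := by
      intro c
      obtain ⟨a, ha, ha', hac, hb⟩ := hd.step c.2 hO hfr hρ
      set j := piv c.1 with hj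
      have hx := hfr.ne j
      let J' : Set K := (fun g => g / s.2 j ^ m) '' J
      have hJ' : ∀ g ∈ J', g ∈ (nx piv s c.1).1 := by
        rintro _ ⟨g, hg, rfl⟩
        exact hfr.div ha hb (hm3 g hg)
      have hf' : ¬ Inp (nx piv s c.1).1 (nx piv s c.1).2
          (mult (homogeneousComponent m (map ρ F)) (fun i => ρ0 (c.1 i)) + 1)
          (f0 / s.2 j ^ m) := by
        intro h1
        rw [← hFev] at h1
        have h2 := le_mult hF0 (hfr.od ha (c := fun i => ρ0 (c.1 i)) hac hb hF h1)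
        omega
      refine le_trans (bad_mono fun w hw => ?_)
        (ih (nx piv s c.1) (hs.next hd c.2) J' hJ' _ ⟨f0, hf0, rfl⟩ _ hf')
      obtain ⟨_, ⟨g, hg, rfl⟩, hmo, hdiv⟩ := hw
      have hw' : ∀ c' ∈ List.ofFn fun i => (w i).1, IsLt S c' := by
        intro c' hc'
        rw [List.mem_ofFn] at hc'
        obtain ⟨i, rfl⟩ := hc'
        exact (w i).2
      have hxj : Mo (run piv (nx piv s c.1) (List.ofFn fun i => (w i).1)).1
          (run piv (nx piv s c.1) (List.ofFn fun i => (w i).1)).2 (s.2 j) :=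
        (hs.next hd c.2).mo_run hd hw' (hs.mo hd c.2 (Mo.self _ _ _))
      refine ⟨g, hg, ?_, fun g' hg' => ?_⟩
      · have h1 := hmo.mul (hxj.pow m)
        rwa [div_mul_cancel₀ _ (pow_ne_zero _ hx)] at h1
      · have h1 := hdiv _ ⟨g', hg', rfl⟩
        change g' / s.2 j ^ m / (g / s.2 j ^ m) ∈ _ at h1
        rwa [div_div_div_cancel_right₀ (pow_ne_zero _ hx)] at h1
    calc ∑ c : Lt n S, bad piv S (nx piv s c.1) J l
        ≤ ∑ c : Lt n S, mult (homogeneousComponent m (map ρ F)) (fun i => ρ0 (c.1 i)) *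
          (S.card ^ (n - 1) - 1) ^ l := Finset.sum_le_sum fun c _ => hstep c
      _ = (∑ c : Lt n S, mult (homogeneousComponent m (map ρ F)) (fun i => ρ0 (c.1 i))) *
          (S.card ^ (n - 1) - 1) ^ l := by rw [Finset.sum_mul]
      _ ≤ m * (S.card ^ (n - 1) - 1) * (S.card ^ (n - 1) - 1) ^ l :=
          Nat.mul_le_mul_right _ (sum_mult hd hn hF0 (homogeneousComponent_isHomogeneous _ _))
      _ = m * (S.card ^ (n - 1) - 1) ^ (l + 1) := by ring
      _ ≤ μ * (S.card ^ (n - 1) - 1) ^ (l + 1) := Nat.mul_le_mul_right _ hm2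

end count

end Pool.Agent.Q40.RP
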