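import Pool.Agent.Q40.RP.Gp

/-!
# Toric cycles lower all orders
-/

set_option autoImplicit false
set_option linter.unusedVariables false
set_option linter.unusedSectionVars false

universe u v

namespace Pool.Agent.Q40.RP

open MvPolynomial

section od0

variable {K : Type u} [Field K] {k : Type v} [Field k] {n : ℕ}
  {Q : Subring K} {ρ : Q →+* k} {x x' : Fin n → K} {j : Fin n}

/-- The initial forms at the origin of the chart. -/
theorem Fra.od0 (h : Fra Q ρ x) (hb : Blw x x' j) {m : ℕ} {F : MvPolynomial (Fin n) Q}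
    (hF : Low m F) {E : MvPolynomial (Fin n) (nr Q x')} (hE : Low m E)
    (he : ev (nr Q x') x' E = ev Q x F / x j ^ m) :
    (∀ δ, Finsupp.degree δ = m → ρ (coeff δ F) ≠ 0 → δ j = 0) ∧
      ∀ γ, Finsupp.degree γ = m → γ j = 0 → rh h hb (coeff γ E) = ρ (coeff γ F) := by
  classical
  let ψ : (Fin n →₀ ℕ) → (Fin n →₀ ℕ) := fun δ => δ.update j (Finsupp.degree δ - m)
  let D0 : Set (Fin n →₀ ℕ) := {δ | m ≤ Finsupp.degree δ}
  have hψ : ∀ δ ∈ D0, Rel j m δ (ψ δ) := fun δ hδ => rel_down hδ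
  have hinj : Set.InjOn ψ D0 := by
    intro δ hδ δ' hδ' he
    have h1 := hψ δ hδ
    rw [he] at h1
    exact h1.unique_left (hψ δ' hδ')
  have hsup : ∀ δ, coeff δ F ≠ 0 → δ ∈ D0 := fun δ hδ => hF δ hδ
  have hxj0 : x j ≠ 0 := h.ne j
  have hF2 : ev Q x' (tr ψ F) * x j ^ m = ev Q x F := by
    rw [ev_sum Q x]
    unfold tr
    rw [map_sum, Finset.sum_mul]
    refine Finset.sum_congr rfl fun δ hδ => ?_
    rw [ev_monomial, hb.prod (hψ δ (hsup δ (mem_support_iff.1 hδ)))]
    ring
  have hF3 : ev Q x F / x j ^ m = ev Q x' (tr ψ F) := by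
    rw [← hF2, mul_div_assoc, div_self (pow_ne_zero _ hxj0), mul_one]
  rw [hF3] at he
  obtain ⟨D, H, hD, hH, hevH, hco⟩ := h.clear hb hE
  rw [he, ← map_mul] at hevH
  have hth : th ρ j D * th ρ j (tr ψ F) = th ρ j H := by
    rw [← map_mul, ← sub_eq_zero, ← map_sub]
    ext γ
    rw [coeff_th, coeff_zero]
    split_ifs with hγ
    · refine h.zero hb ?_ hγ
      rw [map_sub, hevH, sub_self]
    · rfl
  have hD0 : coeff 0 (th ρ j D) ≠ 0 := by
    rw [coeff_th, if_pos (by simp)]
    exact (h.isUnit _).1 hD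
  have hlow : Low m (th ρ j (tr ψ F)) := by
    refine Low.of_mul hD0 ?_
    rw [hth]
    intro γ hγ
    rw [coeff_th] at hγ
    split_ifs at hγ with hγj
    · exact hH γ fun h0 => hγ (by rw [h0, map_zero])
    · exact absurd rfl hγ
  constructor
  · intro δ hδ hne
    have hδD : δ ∈ D0 := hδ.ge
    have hδj : (ψ δ) j = 0 := by
      simp only [ψ]
      rw [Finsupp.coe_update, Function.update_self, hδ, Nat.sub_self]
    have h1 := hlow (ψ δ) (by
      rw [coeff_th, if_pos hδj, coeff_tr hsup hinj hδD]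
      exact hne)
    have h2 := degree_update δ j (Finsupp.degree δ - m)
    change Finsupp.degree (ψ δ) + δ j = _ at h2
    omega
  · intro γ hγ hγj
    have hγD : γ ∈ D0 := hγ.ge
    have hψγ : ψ γ = γ := by
      simp only [ψ]
      rw [hγ, Nat.sub_self, ← hγj]
      exact Finsupp.update_self γ j
    have h1 : coeff γ (th ρ j (tr ψ F)) = ρ (coeff γ F) := by
      rw [coeff_th, if_pos hγj]
      nth_rewrite 1 [← hψγ]
      rw [coeff_tr hsup hinj hγD]
    have h2 : coeff γ (th ρ j D * th ρ j (tr ψ F)) =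
        coeff 0 (th ρ j D) * coeff γ (th ρ j (tr ψ F)) := by
      rw [coeff_mul, Finset.sum_eq_single (0, γ)]
      · rintro ⟨a, b⟩ hab hne
        rw [Finset.HasAntidiagonal.mem_antidiagonal] at hab
        simp only at hab ⊢
        have h4 : a ≠ 0 := by
          rintro rfl
          rw [zero_add] at hab
          exact hne (by rw [hab])
        have h5 : Finsupp.degree b < m := by
          rw [← hγ, ← hab, map_add]
          have h6 : 0 < Finsupp.degree a := by
            rw [Nat.pos_iff_ne_zero]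
            intro h7
            exact h4 ((Finsupp.degree_eq_zero_iff a).1 h7)
          omega
        rw [hlow.coeff_eq_zero h5, mul_zero]
      · intro h4
        exact absurd (Finset.HasAntidiagonal.mem_antidiagonal.2 (zero_add γ)) h4
    have h3 : coeff γ (th ρ j H) = ρ (coeff γ H) := by rw [coeff_th, if_pos hγj]
    have h4 : coeff 0 (th ρ j D) = cc ρ D := by
      rw [coeff_th, if_pos (by simp)]
      rfl
    rw [hco γ hγ, ← h3, ← hth, h2, h1, h4]
    exact mul_div_cancel_left₀ _ (h.cc_ne hD)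

end od0

section deg

variable {k : Type v} [Field k] {n : ℕ}

lemma totalDegree_sh (c : Fin n → k) (F : MvPolynomial (Fin n) k) :
    (sh c F).totalDegree ≤ F.totalDegree := by
  classical
  unfold sh
  conv_lhs => rw [← F.support_sum_monomial_coeff, map_sum]
  refine totalDegree_finsetSum_le fun δ hδ => ?_
  rw [bind₁_monomial]
  refine (totalDegree_mul _ _).trans ?_
  rw [totalDegree_C, zero_add]
  refine (totalDegree_finsetProd _ _).trans ?_
  refine le_trans (Finset.sum_le_sum fun i _ => ?_) (le_totalDegree hδ)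
  refine (totalDegree_pow _ _).trans ?_
  have h1 : (X i + C (c i) : MvPolynomial (Fin n) k).totalDegree ≤ 1 := by
    refine (totalDegree_add _ _).trans ?_
    rw [totalDegree_X, totalDegree_C]
    simp
  calc δ i * (X i + C (c i) : MvPolynomial (Fin n) k).totalDegree ≤ δ i * 1 :=
        Nat.mul_le_mul_left _ h1
    _ = δ i := mul_one _

lemma mult_le_degree {F : MvPolynomial (Fin n) k} (hF : F ≠ 0) (c : Fin n → k) :
    mult F c ≤ F.totalDegree := by
  obtain ⟨γ, hγ, hd⟩ := exists_mult hF c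
  rw [← hd]
  refine le_trans ?_ (totalDegree_sh c F)
  have := le_totalDegree (mem_support_iff.2 hγ)
  rw [Finsupp.degree_apply]
  exact this

end deg

section cyc

variable {K : Type u} [Field K] {k : Type v} [Field k] {n : ℕ}
  {O : Subring K} {ρ0 : O →+* k} {S : Finset O} {piv : (Fin n → O) → Fin n}

/-- The letter of the origin of the chart. -/
lemma Dat.piv_single (hd : Dat O ρ0 S piv) {a : O} (ha : a ≠ 0) (t : Fin n) :
    piv (Pi.single t a) = t := by
  by_contra h
  apply hd.piv (Pi.single t a)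
  · intro h0
    have := congrFun h0 t
    rw [Pi.single_eq_same] at this
    exact ha this
  · rw [Pi.single_eq_of_ne h]

lemma blw_single (hd : Dat O ρ0 S piv) {a : O} (ha : a ≠ 0) (t : Fin n) {x : Fin n → K}
    (hx : x t ≠ 0) : Blw x (stp (piv (Pi.single t a))
      (fun i => ((Pi.single t a : Fin n → O) i : K)) x) t := by
  rw [hd.piv_single ha]
  refine ⟨by simp [stp], fun i hi => ?_⟩
  simp only [stp, if_neg hi, Pi.single_eq_of_ne hi, ZeroMemClass.coe_zero, zero_div, sub_zero]
  field_simp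

variable {ω : ℕ → Fin n → O} {s0 : Sta K n}

/-- Survival through a part of a toric cycle. -/
theorem chain (hd : Dat O ρ0 S piv) {a : O} (ha : a ≠ 0) {p : ℕ}
    (hp : ∀ t : Fin n, ω (p + t) = Pi.single t a) {m : ℕ} {z : ℕ → K}
    (hz : ∀ t : Fin n, z (t + 1) = z t / (sq piv s0 ω (p + t)).2 t ^ m)
    (hin : ∀ t, t ≤ n → Inp (sq piv s0 ω (p + t)).1 (sq piv s0 ω (p + t)).2 m (z t)) :
    ∀ d : ℕ, ∀ t : ℕ, t + d = n → ∀ ρ : (sq piv s0 ω (p + t)).1 →+* k,
      Fra (sq piv s0 ω (p + t)).1 ρ (sq piv s0 ω (p + t)).2 →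
      ∀ F : MvPolynomial (Fin n) (sq piv s0 ω (p + t)).1, Low m F →
      ev _ (sq piv s0 ω (p + t)).2 F = z t → ∀ δ, Finsupp.degree δ = m →
      (∀ i : Fin n, (i : ℕ) < t → δ i = 0) → ρ (coeff δ F) ≠ 0 → δ = 0 := by
  classical
  intro d
  induction d with
  | zero =>
    intro t ht ρ hf F hF he δ hδ hi hne
    ext i
    exact hi i (by omega)
  | succ d ih =>
    intro t ht ρ hf F hF he δ hδ hi hne
    have htn : t < n := by omega
    obtain ⟨E, hE, heE⟩ := hin (t + 1) (by omega)
    have hωt : ω (p + t) = Pi.single (⟨t, htn⟩ : Fin n) a := hp ⟨t, htn⟩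
    have hs : sq piv s0 ω (p + (t + 1)) = nx piv (sq piv s0 ω (p + t)) (Pi.single ⟨t, htn⟩ a) := by
      rw [← hωt]
      rfl
    have hb := blw_single hd ha ⟨t, htn⟩ (hf.ne ⟨t, htn⟩)
    have key : ∀ s' : Sta K n, s' = nx piv (sq piv s0 ω (p + t)) (Pi.single ⟨t, htn⟩ a) →
        ∀ E : MvPolynomial (Fin n) s'.1, Low m E → ev s'.1 s'.2 E = z (t + 1) →
        (∀ ρ : s'.1 →+* k, Fra s'.1 ρ s'.2 → ∀ δ, Finsupp.degree δ = m →
          (∀ i : Fin n, (i : ℕ) < t + 1 → δ i = 0) → ρ (coeff δ E) ≠ 0 → δ = 0) → δ = 0 := by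
      rintro _ rfl E hE heE hind
      have h1 : z (t + 1) = ev _ (sq piv s0 ω (p + t)).2 F /
          (sq piv s0 ω (p + t)).2 ⟨t, htn⟩ ^ m := by
        rw [he]
        exact hz ⟨t, htn⟩
      obtain ⟨h2, h3⟩ := hf.od0 hb hF hE (heE.trans h1)
      have h4 := h2 δ hδ hne
      refine hind (rh hf hb) (hf.blow hb) δ hδ (fun i hit => ?_) ?_
      · by_cases hi' : (i : ℕ) < t
        · exact hi i hi'
        · have h5 : i = ⟨t, htn⟩ := Fin.ext (by change (i : ℕ) = t; omega)
          rw [h5]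
          exact h4
      · exact fun h0 => hne ((h3 δ hδ h4).symm.trans h0)
    refine key _ hs E hE heE fun ρ' hf' δ' hδ' hi' hne' => ?_
    exact ih (t + 1) (by omega) ρ' hf' E hE heE δ' hδ' hi' hne'

lemma sq_shift (piv : (Fin n → O) → Fin n) (s : Sta K n) (ω : ℕ → Fin n → O) (i l : ℕ) :
    sq piv (sq piv s ω i) (fun l => ω (i + l)) l = sq piv s ω (i + l) := by
  induction l with
  | zero => rfl
  | succ l ih =>
    change nx piv (sq piv (sq piv s ω i) (fun l => ω (i + l)) l) (ω (i + l)) =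
      nx piv (sq piv s ω (i + l)) (ω (i + l))
    rw [ih]

/-- The order does not increase. -/
lemma not_inp_next (hd : Dat O ρ0 S piv) {c : Fin n → O} (hc : IsLt S c) {s : Sta K n}
    (h : Gd O ρ0 s) {m : ℕ} {f : K} (hf1 : Inp s.1 s.2 m f) (hf2 : ¬ Inp s.1 s.2 (m + 1) f) :
    ¬ Inp (nx piv s c).1 (nx piv s c).2 (m + 1) (f / s.2 (piv c) ^ m) := by
  obtain ⟨hO, ρ, hf, hρ⟩ := h
  obtain ⟨a, ha, ha', hac, hb⟩ := hd.step hc hO hf hρ
  obtain ⟨F, hF, rfl⟩ := hf1
  intro hcon
  have h1 := hf.od ha (c := fun i => ρ0 (c i)) hac hb hF hcon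
  have hF0 : homogeneousComponent m (map ρ F) ≠ 0 := by
    intro h0
    apply hf2
    refine hf.inp_succ hF fun γ hγ => ?_
    have h1 := congrArg (coeff γ) h0
    rw [coeff_homogeneousComponent, if_pos hγ, coeff_map, coeff_zero] at h1
    exact h1
  have h2 := le_mult hF0 h1
  have h3 := mult_le_degree hF0 (fun i => ρ0 (c i))
  rw [(homogeneousComponent_isHomogeneous m (map ρ F)).totalDegree hF0] at h3
  omega

/-- All ideals become principal and monomial along a branch with infinitely many toric cycles. -/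
theorem cyc (hd : Dat O ρ0 S piv) {a : O} (ha : a ≠ 0) : ∀ (m : ℕ) (ω : ℕ → Fin n → O),
    (∀ l, IsLt S (ω l)) → (∀ N, ∃ p, N ≤ p ∧ ∀ t : Fin n, ω (p + t) = Pi.single t a) →
    ∀ s : Sta K n, Gd O ρ0 s → ∀ J : Set K, (∀ g ∈ J, g ∈ s.1) → ∀ f ∈ J,
      ¬ Inp s.1 s.2 (m + 1) f → ∃ l, Pr (sq piv s ω l) J := by
  classical
  intro m
  induction m with
  | zero =>
    intro ω hω hpat s hs J hJ f hf hμ
    obtain ⟨hO, ρ, hfr, hρ⟩ := hs
    refine ⟨0, ?_⟩
    have h3 : ρ ⟨f, hJ f hf⟩ ≠ 0 := by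
      intro h0
      apply hμ
      have h4 := hfr.inp_succ (m := 0) (F := C (⟨f, hJ f hf⟩ : s.1)) (low_zero _) (by
        intro γ hγ
        rw [Finsupp.degree_eq_zero_iff] at hγ
        rw [hγ, coeff_zero_C]
        exact h0)
      rwa [ev_C] at h4
    have h4 := hfr.inv _ h3
    have hf0 : f ≠ 0 := by
      rintro rfl
      apply h3
      have : (⟨0, hJ 0 hf⟩ : s.1) = 0 := rfl
      rw [this, map_zero]
    refine ⟨f, hf, Mo.unit hf0 (hJ f hf) h4, fun g hg => ?_⟩
    rw [div_eq_mul_inv]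
    exact s.1.mul_mem (hJ g hg) h4
  | succ m ih =>
    intro ω hω hpat s hs J hJ f hf hμ
    by_contra hcon
    have hgd := sq_gd hd hω hs
    -- the products of the powers of the exceptional parameters
    let M : ℕ → K := fun i => ∏ l ∈ Finset.range i, (sq piv s ω l).2 (piv (ω l)) ^ (m + 1)
    have hM0 : ∀ i, M i ≠ 0 := fun i => Finset.prod_ne_zero_iff.2 fun l _ =>
      pow_ne_zero _ ((hgd l).nu _).2.1
    have hMs : ∀ i (g : K), g / M (i + 1) = g / M i / (sq piv s ω i).2 (piv (ω i)) ^ (m + 1) := by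
      intro i g
      simp only [M]
      rw [Finset.prod_range_succ, div_mul_eq_div_div]
    have hMmo : ∀ i, Mo (sq piv s ω i).1 (sq piv s ω i).2 (M i) := by
      intro i
      refine Mo.prod _ fun l hl => Mo.pow ?_ _
      exact sq_mo hd hω hs (Finset.mem_range.1 hl).le (Mo.self _ _ _)
    -- principalization of a later transform
    have hlater : ∀ i l, ¬ Pr (sq piv s ω (i + l)) ((fun g => g / M i) '' J) := by
      rintro i l ⟨_, ⟨g, hg, rfl⟩, hmo, hdiv⟩
      apply hcon
      refine ⟨i + l, g, hg, ?_, fun g' hg' => ?_⟩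
      · have h1 := hmo.mul (sq_mo hd hω hs (Nat.le_add_right i l) (hMmo i))
        rwa [div_mul_cancel₀ _ (hM0 i)] at h1
      · have h1 := hdiv _ ⟨g', hg', rfl⟩
        change g' / M i / (g / M i) ∈ _ at h1
        rwa [div_div_div_cancel_right₀ (hM0 i)] at h1
    -- the order does not drop
    have hall : ∀ i, (∀ g ∈ J, g / M i ∈ (sq piv s ω i).1) →
        ∀ g ∈ J, Inp (sq piv s ω i).1 (sq piv s ω i).2 (m + 1) (g / M i) := by
      intro i hi g hg
      by_contra h1
      obtain ⟨l, hl⟩ := ih (fun l => ω (i + l)) (fun l => hω _) (fun N => by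
        obtain ⟨p, hp, hpu⟩ := hpat (i + N)
        refine ⟨p - i, by omega, fun t => ?_⟩
        have h2 : i + (p - i + (t : ℕ)) = p + t := by omega
        simp only [h2]
        exact hpu t) (sq piv s ω i) (hgd i) ((fun g => g / M i) '' J) (by
          rintro _ ⟨g, hg, rfl⟩
          exact hi g hg) _ ⟨g, hg, rfl⟩ h1
      rw [sq_shift] at hl
      exact hlater i l hl
    have hmem : ∀ i, (∀ g ∈ J, g / M i ∈ (sq piv s ω i).1) ∧
        ¬ Inp (sq piv s ω i).1 (sq piv s ω i).2 (m + 1 + 1) (f / M i) := by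
      intro i
      induction i with
      | zero =>
        have hM : M 0 = 1 := by simp [M]
        rw [hM]
        refine ⟨fun g hg => ?_, ?_⟩
        · rw [div_one]
          exact hJ g hg
        · rw [div_one]
          exact hμ
      | succ i ihi =>
        obtain ⟨h1, h2⟩ := ihi
        have h3 := hall i h1
        refine ⟨fun g hg => ?_, ?_⟩
        · rw [hMs]
          obtain ⟨hO, ρ, hfr, hρ⟩ := hgd i
          obtain ⟨b, hb0, hb', hbc, hb⟩ := hd.step (hω i) hO hfr hρ
          exact hfr.div hb0 hb (h3 g hg)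
        · rw [hMs]
          exact not_inp_next hd (hω i) (hgd i) (h3 f hf) h2
    -- the toric cycle
    obtain ⟨p, -, hp⟩ := hpat 0
    obtain ⟨hO, ρ, hfr, hρ⟩ := hgd p
    obtain ⟨F, hF, hFe⟩ := hall p (hmem p).1 f hf
    have h1 := chain (s0 := s) (m := m + 1) hd ha hp (z := fun t => f / M (p + t)) (fun t => by
        have h2 := hMs (p + t) f
        rw [hp t, hd.piv_single ha] at h2
        exact h2)
      (fun t _ => hall (p + t) (hmem (p + t)).1 f hf) n 0 (by omega) ρ hfr F hF hFe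
    apply (hmem p).2
    rw [← hFe]
    refine hfr.inp_succ hF fun γ hγ => ?_
    by_contra hne
    have h2 := h1 γ hγ (fun i hi => absurd hi (Nat.not_lt_zero _)) hne
    rw [h2, map_zero] at hγ
    omega

end cyc

end Pool.Agent.Q40.RP
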