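import Pool.Agent.Q40.RP.Extra

/-!
# The main theorems on branches of infinitely near rational points
-/

set_option autoImplicit false
set_option linter.unusedVariables false
set_option linter.unusedSectionVars false

universe u v

namespace Pool.Agent.Q40.RP

open MvPolynomial IsLocalRing MeasureTheory Pool.Agent.W418.LU2 Pool.Agent.TH188.QS

section main

variable {K : Type u} [Field K] {n : ℕ} {O : Subring K} [IsRegularLocalRing O]
  (hfr : ∀ z : K, ∃ a b : O, b ≠ 0 ∧ z = a / b) {x : Fin n → O}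
  (hx : Ideal.span (Set.range x) = maximalIdeal O)
  (hdim : ((n : ℕ) : WithBot ℕ∞) ≤ ringKrullDim O)
  {S : Finset O} {piv : (Fin n → O) → Fin n}

/-- The first local ring with its parameters. -/
abbrev st0 (x : Fin n → O) : Sta K n := (O, fun i => (x i : K))

lemma dat_of (hS0 : (0 : O) ∈ S) (hS : ∀ a ∈ S, ∀ b ∈ S, a ≠ b → IsUnit (a - b))
    (hpiv : ∀ c : Fin n → O, c ≠ 0 → c (piv c) ≠ 0) : Dat O (residue O) S piv where
  unit := by
    intro a ha
    apply isUnit_inv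
    by_contra h
    exact ha ((residue_eq_zero_iff a).2 ((mem_maximalIdeal a).2 h))
  zero := hS0
  inj := by
    intro a ha b hb hab
    by_contra hne
    have h1 := hS a ha b hb hne
    have h2 : residue O (a - b) = 0 := by rw [map_sub, hab, sub_self]
    rw [residue_eq_zero_iff] at h2
    exact (mem_maximalIdeal _).1 h2 h1
  piv := hpiv

include hx hdim

lemma gd_base : Gd O (residue O) (st0 (K := K) x) :=
  ⟨le_rfl, residue O, fra_base hx hdim, fun a => rfl⟩

/-- Orders in a noetherian local ring. -/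
lemma exists_inp {b : O} (hb : b ≠ 0) :
    ∃ μ, ¬ Inp (st0 (K := K) x).1 (st0 (K := K) x).2 (μ + 1) (b : K) := by
  have h1 : ∀ i, x i ∈ maximalIdeal O := fun i => by
    rw [← hx]; exact Ideal.subset_span ⟨i, rfl⟩
  by_contra hcon
  push Not at hcon
  apply hb
  have h2 : b ∈ ⨅ i, maximalIdeal O ^ i := by
    rw [Ideal.mem_iInf]
    intro i
    exact Ideal.pow_le_pow_right (Nat.le_succ i) (inp_base h1 (hcon i))
  rw [Ideal.iInf_pow_eq_bot_of_isLocalRing _ (maximalIdeal.isMaximal O).ne_top] at h2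
  exact h2

/-- The bound for ideals. -/
theorem bad_ideal (hn : 1 ≤ n) (hd : Dat O (residue O) S piv) (J : Ideal O) (μ l : ℕ)
    (hJ : ¬ J ≤ maximalIdeal O ^ (μ + 1)) :
    bad piv S (st0 (K := K) x) ((fun a : O => (a : K)) '' J) l ≤
      μ * (S.card ^ (n - 1) - 1) ^ l := by
  have h1 : ∀ i, x i ∈ maximalIdeal O := fun i => by
    rw [← hx]; exact Ideal.subset_span ⟨i, rfl⟩
  obtain ⟨f, hf, hfJ⟩ := Set.not_subset.1 hJ
  refine bad_le hd hn l _ (gd_base hx hdim) _ ?_ (f : K) (Set.mem_image_of_mem _ hf) μ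
    fun h => hfJ ?_
  · rintro _ ⟨a, _, rfl⟩
    exact a.2
  · exact inp_base h1 h

include hfr

/-- The valuation ring of a branch with infinitely many toric cycles. -/
theorem det (hd : Dat O (residue O) S piv) {ω : ℕ → Fin n → O} (hω : ∀ l, IsLt S (ω l))
    {a : O} (ha : a ≠ 0) (hpat : ∀ N, ∃ p, N ≤ p ∧ ∀ t : Fin n, ω (p + t) = Pi.single t a) :
    ∃ V : ValuationSubring K, (∀ z, z ∈ V ↔ ∃ l, z ∈ (sq piv (st0 x) ω l).1) ∧
      (∀ z : K, z ≠ 0 → ∃ l, PMon (sq piv (st0 x) ω l).1 (sq piv (st0 x) ω l).2 z) ∧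
      (∀ A : Subring K, A ≤ V.toSubring → IsNoetherianRing A → ∀ (l0 : ℕ) (g0 : K),
        Fg V A (sq piv (st0 x) ω l0).1 g0 → LogUnif V A) ∧
      (∀ z ∈ V, ∃ a : O, V.valuation (z - a) < 1) ∧
      (2 ≤ n → ∀ x : K, x ≠ 0 → V.valuation x < 1 →
        ∃ y : K, V.valuation x < V.valuation y ∧ V.valuation y < 1) := by
  classical
  have hg := gd_base (K := K) hx hdim
  have hpr : ∀ a' b : O, b ≠ 0 → ∃ l, Pr (sq piv (st0 (K := K) x) ω l) {(a' : K), (b : K)} := by
    intro a' b hb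
    obtain ⟨μ, hμ⟩ := exists_inp (K := K) hx hdim hb
    refine cyc hd ha μ ω hω hpat _ hg _ ?_ (b : K) (Or.inr rfl) hμ
    rintro g (rfl | rfl)
    · exact a'.2
    · exact b.2
  obtain ⟨V, hV⟩ := exists_val hd hω hg hfr hpr
  have hmo : ∀ z : K, z ≠ 0 → ∃ l, PMon (sq piv (st0 x) ω l).1 (sq piv (st0 x) ω l).2 z := by
    intro z hz
    obtain ⟨c, b, hb, rfl⟩ := hfr z
    have hc : c ≠ 0 := by
      rintro rfl
      rw [ZeroMemClass.coe_zero, zero_div] at hz
      exact hz rfl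
    have hone : ∀ b : O, b ≠ 0 → ∃ l, Mo (sq piv (st0 (K := K) x) ω l).1
        (sq piv (st0 (K := K) x) ω l).2 (b : K) := by
      intro b hb
      obtain ⟨l, f, hf, hm, -⟩ := hpr b b hb
      have hfb : f = (b : K) := by
        rcases hf with h | h
        · exact h
        · exact h
      exact ⟨l, hfb ▸ hm⟩
    obtain ⟨l1, h1⟩ := hone c hc
    obtain ⟨l2, h2⟩ := hone b hb
    refine ⟨max l1 l2, ?_⟩
    rw [div_eq_mul_inv]
    exact (sq_mo hd hω hg (le_max_left l1 l2) h1).pmon.mul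
      (fun i => ((sq_gd hd hω hg _).nu i).2.1) (sq_mo hd hω hg (le_max_right l1 l2) h2).pmon.inv
  have hreg : RegP V.toSubring (st0 (K := K) x).1 (st0 (K := K) x).2 := by
    have hfa := fra_base (K := K) hx hdim
    refine ⟨sq_le hd hω hg hV 0, fun i => (hg.nu i).2.1, fun i => (x i).2, inferInstance,
      sq_inv hd hω hg hV 0, ?_⟩
    have hind : Ind x := ind_of_span hx (by rwa [Fintype.card_fin])
    exact IndN.of_ind id Function.injective_id (fun i _ => ⟨i, rfl⟩) hind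
  refine ⟨V, hV, hmo, ?_, ?_, ?_⟩
  · intro A hA hAn l0 g0 hFg
    have := hAn
    exact (sq_gp hd hω hg hV hreg hmo hA hFg).logUnif hA
  · exact sq_residue hd hω hg hV residue_surjective
  · intro hn x' hx' hx1
    exact sq_nd hd hω hg hV hn ha hpat x' hx' hx1

/-- Almost all branches. -/
theorem ae_main (hn : 1 ≤ n) (hS2 : 2 ≤ S.card) (hd : Dat O (residue O) S piv)
    [MeasurableSpace (Lt n S)] [MeasurableSingletonClass (Lt n S)] [Nonempty (Lt n S)] :
    ∀ᵐ ω : ℕ → Lt n S ∂(Measure.infinitePi (fun _ : ℕ =>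
      (PMF.uniformOfFintype (Lt n S)).toMeasure)),
      ∃ V : ValuationSubring K,
        (∀ z, z ∈ V ↔ ∃ l, z ∈ (sq piv (st0 x) (fun l => (ω l).1) l).1) ∧
        (∀ A : Subring K, A ≤ V.toSubring → IsNoetherianRing A → ∀ (l0 : ℕ) (g0 : K),
          Fg V A (sq piv (st0 x) (fun l => (ω l).1) l0).1 g0 → LogUnif V A) ∧
        (∀ z ∈ V, ∃ a : O, V.valuation (z - a) < 1) ∧
        (∀ x y : K, x ≠ 0 → y ≠ 0 → V.valuation x < 1 → V.valuation y < 1 →
          ∃ a b : ℕ, 0 < a ∧ 0 < b ∧ V.valuation (x ^ a) = V.valuation (y ^ b)) ∧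
        (2 ≤ n → ∀ x : K, x ≠ 0 → V.valuation x < 1 →
          ∃ y : K, V.valuation x < V.valuation y ∧ V.valuation y < 1) := by
  classical
  obtain ⟨a, haS, ha⟩ : ∃ a ∈ S, a ≠ 0 := by
    have h1 : 0 < (S.erase 0).card := by
      rw [Finset.card_erase_of_mem hd.zero]
      omega
    obtain ⟨a, h⟩ := Finset.card_pos.1 h1
    exact ⟨a, Finset.mem_of_mem_erase h, Finset.ne_of_mem_erase h⟩
  have hsing : ∀ t : Fin n, IsLt S (Pi.single t a : Fin n → O) := by
    intro t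
    refine ⟨fun i => ?_, fun h => ?_⟩
    · by_cases hi : i = t
      · rw [hi, Pi.single_eq_same]; exact haS
      · rw [Pi.single_eq_of_ne hi]; exact hd.zero
    · have := congrFun h t
      rw [Pi.single_eq_same] at this
      exact ha this
  have hconst : IsLt S (fun _ : Fin n => a) := by
    refine ⟨fun _ => haS, fun h => ha ?_⟩
    exact congrFun h (⟨0, by omega⟩ : Fin n)
  filter_upwards [ae_pattern (Γ := Lt n S) (fun t : Fin n => ⟨Pi.single t a, hsing t⟩),
    ae_pattern (Γ := Lt n S) (fun _ : Fin 1 => ⟨fun _ => a, hconst⟩)] with ω h1 h2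
  have hω : ∀ l, IsLt S (ω l).1 := fun l => (ω l).2
  have hpat : ∀ N, ∃ p, N ≤ p ∧ ∀ t : Fin n, (ω (p + t)).1 = Pi.single t a := by
    intro N
    obtain ⟨p, hp, hpu⟩ := h1 N
    exact ⟨p, hp, fun t => congrArg Subtype.val (hpu t)⟩
  have hinf : ∀ N, ∃ l, N ≤ l ∧ ∀ i, (ω l).1 i ≠ 0 := by
    intro N
    obtain ⟨p, hp, hpu⟩ := h2 N
    refine ⟨p, hp, fun i => ?_⟩
    have h3 := congrArg Subtype.val (hpu 0)
    change (ω (p + 0)).1 = _ at h3
    rw [add_zero] at h3
    rw [h3]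
    exact ha
  obtain ⟨V, hV, hmo, h3, h4, h5⟩ := det hfr hx hdim hd hω ha hpat
  refine ⟨V, hV, h3, h4, ?_, h5⟩
  intro y z hy hz hy1 hz1
  exact sq_comm hd hω (gd_base (K := K) hx hdim) hV hmo hinf y z hy hz hy1 hz1

end main

section fg

variable {K : Type u} [Field K] {V : ValuationSubring K}

/-- Common denominators of finitely many fractions. -/
lemma fg_of {A Q : Subring K} {T : Set K} (hT : T.Finite) (hTV : ∀ t ∈ T, t ∈ V)
    (hTA : ∀ t ∈ T, ∃ g ∈ A, g ≠ 0 ∧ t * g ∈ A)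
    (hQ : Q = lo V.toSubring (Subring.closure ((A : Set K) ∪ T))) : ∃ g, Fg V A Q g := by
  have h1 : ∃ g ∈ A, g ≠ 0 ∧ ∀ t ∈ T, t * g ∈ A := by
    clear hQ hTV
    induction T, hT using Set.Finite.induction_on with
    | empty => exact ⟨1, A.one_mem, one_ne_zero, fun t ht => ht.elim⟩
    | insert _ _ ih =>
      obtain ⟨g, hg, hg0, hgt⟩ := ih fun t ht => hTA t (Or.inr ht)
      obtain ⟨g', hg', hg0', hgt'⟩ := hTA _ (Or.inl rfl)
      refine ⟨g * g', A.mul_mem hg hg', mul_ne_zero hg0 hg0', ?_⟩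
      rintro t (rfl | ht)
      · have : t * (g * g') = g * (t * g') := by ring
        rw [this]
        exact A.mul_mem hg hgt'
      · rw [← mul_assoc]
        exact A.mul_mem (hgt t ht) hg'
  obtain ⟨g, hg, hg0, hgt⟩ := h1
  exact ⟨g, hg, hg0, T, hT, fun t ht => ⟨hTV t ht, hgt t ht⟩, hQ⟩

end fg

end Pool.Agent.Q40.RP
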