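import Pool.Agent.Q40.RP.Blw

/-!
# The local ring of a rational point of the blowing-up
-/

set_option autoImplicit false
set_option linter.unusedVariables false
set_option linter.unusedSectionVars false

universe u v

namespace Pool.Agent.Q40.RP

open MvPolynomial

section nr

variable {K : Type u} [Field K] {k : Type v} [Field k] {n : ℕ}

/-- The fractions of polynomials in `x'` over `Q` whose denominators have constant terms which
are units. -/
noncomputable def nr (Q : Subring K) (x' : Fin n → K) : Subring K where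
  carrier := {z | ∃ E D : MvPolynomial (Fin n) Q, IsUnit (constantCoeff D) ∧
    z = ev Q x' E / ev Q x' D}
  mul_mem' := by
    rintro _ _ ⟨E, D, hD, rfl⟩ ⟨E', D', hD', rfl⟩
    refine ⟨E * E', D * D', by rw [map_mul]; exact hD.mul hD', ?_⟩
    rw [map_mul, map_mul, div_mul_div_comm]
  one_mem' := ⟨1, 1, by rw [map_one]; exact isUnit_one, by rw [map_one, div_one]⟩
  add_mem' := by
    rintro _ _ ⟨E, D, hD, rfl⟩ ⟨E', D', hD', rfl⟩
    by_cases h : ev Q x' D = 0
    · refine ⟨E', D', hD', ?_⟩
      rw [h, div_zero, zero_add]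
    · by_cases h' : ev Q x' D' = 0
      · refine ⟨E, D, hD, ?_⟩
        rw [h', div_zero, add_zero]
      · refine ⟨E * D' + D * E', D * D', by rw [map_mul]; exact hD.mul hD', ?_⟩
        rw [map_mul, map_add, map_mul, map_mul, div_add_div _ _ h h']
  zero_mem' := ⟨0, 1, by rw [map_one]; exact isUnit_one, by rw [map_zero, zero_div]⟩
  neg_mem' := by
    rintro _ ⟨E, D, hD, rfl⟩
    exact ⟨-E, D, hD, by rw [map_neg, neg_div]⟩

lemma mem_nr {Q : Subring K} {x' : Fin n → K} {z : K} : z ∈ nr Q x' ↔
    ∃ E D : MvPolynomial (Fin n) Q, IsUnit (constantCoeff D) ∧ z = ev Q x' E / ev Q x' D :=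
  Iff.rfl

lemma ev_mem_nr (Q : Subring K) (x' : Fin n → K) (E : MvPolynomial (Fin n) Q) :
    ev Q x' E ∈ nr Q x' :=
  ⟨E, 1, by rw [map_one]; exact isUnit_one, by rw [map_one, div_one]⟩

lemma le_nr (Q : Subring K) (x' : Fin n → K) : Q ≤ nr Q x' := by
  intro z hz
  have := ev_mem_nr Q x' (C (⟨z, hz⟩ : Q))
  rwa [ev_C] at this

lemma x_mem_nr (Q : Subring K) (x' : Fin n → K) (i : Fin n) : x' i ∈ nr Q x' := by
  have := ev_mem_nr Q x' (X i)
  rwa [ev_X] at this

variable {Q : Subring K} {ρ : Q →+* k} {x x' : Fin n → K} {j : Fin n}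

lemma Fra.isUnit (h : Fra Q ρ x) (q : Q) : IsUnit q ↔ ρ q ≠ 0 := by
  constructor
  · intro hq h0
    have := hq.map ρ
    rw [h0] at this
    exact not_isUnit_zero this
  · intro hq
    have h0 : (q : K) ≠ 0 := by
      intro h1
      apply hq
      have : q = 0 := Subtype.ext h1
      rw [this, map_zero]
    exact isUnit_iff_exists_inv.2 ⟨⟨_, h.inv q hq⟩, Subtype.ext (mul_inv_cancel₀ h0)⟩

/-- The constant term modulo the maximal ideal. -/
noncomputable def cc (ρ : Q →+* k) : MvPolynomial (Fin n) Q →+* k := ρ.comp constantCoeff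

lemma Fra.cc_zero (h : Fra Q ρ x) (hb : Blw x x' j) {E : MvPolynomial (Fin n) Q}
    (h0 : ev Q x' E = 0) : cc ρ E = 0 := by
  have := h.zero hb h0 (γ := 0) (by simp)
  exact this

lemma Fra.ev_ne (h : Fra Q ρ x) (hb : Blw x x' j) {D : MvPolynomial (Fin n) Q}
    (hD : IsUnit (constantCoeff D)) : ev Q x' D ≠ 0 := by
  intro h0
  exact (h.isUnit _).1 hD (h.cc_zero hb h0)

lemma Fra.cc_ne (h : Fra Q ρ x) {D : MvPolynomial (Fin n) Q}
    (hD : IsUnit (constantCoeff D)) : cc ρ D ≠ 0 := (h.isUnit _).1 hD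

lemma Fra.cc_eq (h : Fra Q ρ x) (hb : Blw x x' j) {E D E' D' : MvPolynomial (Fin n) Q}
    (hD : IsUnit (constantCoeff D)) (hD' : IsUnit (constantCoeff D'))
    (he : ev Q x' E / ev Q x' D = ev Q x' E' / ev Q x' D') :
    cc ρ E / cc ρ D = cc ρ E' / cc ρ D' := by
  rw [div_eq_div_iff (h.ev_ne hb hD) (h.ev_ne hb hD')] at he
  rw [div_eq_div_iff (h.cc_ne hD) (h.cc_ne hD'), ← map_mul, ← map_mul, ← sub_eq_zero, ← map_sub]
  apply h.cc_zero hb
  rw [map_sub, map_mul, map_mul, he, sub_self]

/-- The reduction. -/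
noncomputable def rh (h : Fra Q ρ x) (hb : Blw x x' j) : nr Q x' →+* k where
  toFun z := cc ρ z.2.choose / cc ρ z.2.choose_spec.choose
  map_one' := by
    have h1 := (1 : nr Q x').2.choose_spec.choose_spec
    have h2 := h.cc_eq hb (E' := 1) (D' := 1) h1.1 (by rw [map_one]; exact isUnit_one) (by
      rw [← h1.2, map_one, div_one]; rfl)
    rw [h2, map_one, div_one]
  map_mul' := by
    intro a b
    have h1 := a.2.choose_spec.choose_spec
    have h2 := b.2.choose_spec.choose_spec
    have h3 := (a * b).2.choose_spec.choose_spec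
    have h4 := h.cc_eq hb (E' := a.2.choose * b.2.choose)
      (D' := a.2.choose_spec.choose * b.2.choose_spec.choose) h3.1
      (by rw [map_mul]; exact h1.1.mul h2.1) (by
        rw [← h3.2, map_mul, map_mul, ← div_mul_div_comm, ← h1.2, ← h2.2]; rfl)
    rw [h4, map_mul, map_mul, div_mul_div_comm]
  map_zero' := by
    have h1 := (0 : nr Q x').2.choose_spec.choose_spec
    have h2 := h.cc_eq hb (E' := 0) (D' := 1) h1.1 (by rw [map_one]; exact isUnit_one) (by
      rw [← h1.2, map_zero, zero_div]; rfl)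
    rw [h2, map_zero, zero_div]
  map_add' := by
    intro a b
    have h1 := a.2.choose_spec.choose_spec
    have h2 := b.2.choose_spec.choose_spec
    have h3 := (a + b).2.choose_spec.choose_spec
    have h4 := h.cc_eq hb (E' := a.2.choose * b.2.choose_spec.choose +
      a.2.choose_spec.choose * b.2.choose)
      (D' := a.2.choose_spec.choose * b.2.choose_spec.choose) h3.1
      (by rw [map_mul]; exact h1.1.mul h2.1) (by
        rw [← h3.2, map_mul, map_add, map_mul, map_mul,
          ← div_add_div _ _ (h.ev_ne hb h1.1) (h.ev_ne hb h2.1), ← h1.2, ← h2.2]; rfl)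
    rw [h4, map_mul, map_add, map_mul, map_mul, div_add_div _ _ (h.cc_ne h1.1) (h.cc_ne h2.1)]

lemma rh_eq (h : Fra Q ρ x) (hb : Blw x x' j) {z : nr Q x'} {E D : MvPolynomial (Fin n) Q}
    (hD : IsUnit (constantCoeff D)) (he : (z : K) = ev Q x' E / ev Q x' D) :
    rh h hb z = cc ρ E / cc ρ D := by
  have h1 := z.2.choose_spec.choose_spec
  exact h.cc_eq hb h1.1 hD (by rw [← h1.2, he])

lemma rh_C (h : Fra Q ρ x) (hb : Blw x x' j) {z : nr Q x'} (q : Q) (he : (z : K) = q) :
    rh h hb z = ρ q := by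
  rw [rh_eq h hb (E := C q) (D := 1) (by rw [map_one]; exact isUnit_one) (by
    rw [ev_C, map_one, div_one, he]), map_one, div_one]
  simp [cc]

/-- The decomposition of a polynomial without constant term. -/
lemma exists_dec {R : Type v} [CommRing R] (E : MvPolynomial (Fin n) R) :
    ∃ G : Fin n → MvPolynomial (Fin n) R, E = C (constantCoeff E) + ∑ i, G i * X i := by
  classical
  induction E using MvPolynomial.induction_on with
  | C a => exact ⟨0, by simp⟩
  | add p q hp hq =>
    obtain ⟨G, hG⟩ := hp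
    obtain ⟨G', hG'⟩ := hq
    refine ⟨G + G', ?_⟩
    nth_rewrite 1 [hG, hG']
    simp only [map_add, Pi.add_apply, add_mul, Finset.sum_add_distrib]
    ring
  | mul_X p i hp =>
    refine ⟨Pi.single i p, ?_⟩
    rw [Finset.sum_eq_single i]
    · rw [Pi.single_eq_same]
      simp
    · intro l _ hl
      rw [Pi.single_eq_of_ne hl, zero_mul]
    · intro hi
      exact absurd (Finset.mem_univ _) hi

/-- Common denominators of the coefficients. -/
lemma exists_den' (s : Finset (Fin n →₀ ℕ)) (c : (Fin n →₀ ℕ) → nr Q x') :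
    ∃ (D : MvPolynomial (Fin n) Q) (H : (Fin n →₀ ℕ) → MvPolynomial (Fin n) Q),
      IsUnit (constantCoeff D) ∧ (ev Q x' D ≠ 0 → ∀ γ ∈ s, (c γ : K) = ev Q x' (H γ) / ev Q x' D) := by
  classical
  induction s using Finset.induction_on with
  | empty => exact ⟨1, 0, by rw [map_one]; exact isUnit_one, fun _ γ hγ => absurd hγ (by simp)⟩
  | insert a s ha ih =>
    obtain ⟨D, H, hD, hH⟩ := ih
    obtain ⟨E', D', hD', he'⟩ := (c a).2
    refine ⟨D * D', fun γ => if γ = a then D * E' else D' * H γ, by rw [map_mul]; exact hD.mul hD',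
      ?_⟩
    intro h0 γ hγ
    rw [map_mul] at h0
    have h1 : ev Q x' D ≠ 0 := left_ne_zero_of_mul h0
    have h2 : ev Q x' D' ≠ 0 := right_ne_zero_of_mul h0
    dsimp only
    by_cases hγa : γ = a
    · subst hγa
      rw [if_pos rfl, map_mul, map_mul, he', mul_div_mul_left _ _ h1]
    · rw [if_neg hγa, map_mul, map_mul, hH h1 γ (Finset.mem_of_mem_insert_of_ne hγ hγa),
        mul_comm (ev Q x' D) (ev Q x' D'), mul_div_mul_left _ _ h2]

/-- Polynomials over the local ring of the point. -/
lemma Fra.clear (h : Fra Q ρ x) (hb : Blw x x' j) {m : ℕ} {E : MvPolynomial (Fin n) (nr Q x')}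
    (hE : Low m E) : ∃ D H : MvPolynomial (Fin n) Q, IsUnit (constantCoeff D) ∧ Low m H ∧
      ev Q x' H = ev Q x' D * ev (nr Q x') x' E ∧
      ∀ γ, Finsupp.degree γ = m → rh h hb (coeff γ E) = ρ (coeff γ H) / cc ρ D := by
  classical
  obtain ⟨D, H, hD, hH⟩ := exists_den' E.support (fun γ => coeff γ E)
  have hD0 := h.ev_ne hb hD
  have hH := hH hD0
  refine ⟨D, ∑ γ ∈ E.support, H γ * monomial γ 1, hD, ?_, ?_, ?_⟩
  · exact Low.sum _ fun γ hγ => (Low.monomial (hE γ (mem_support_iff.1 hγ)) 1).mul_left _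
  · rw [map_sum, ev_sum (nr Q x'), Finset.mul_sum]
    refine Finset.sum_congr rfl fun γ hγ => ?_
    rw [map_mul, ev_monomial, OneMemClass.coe_one, one_mul, hH γ hγ]
    field_simp
  · intro γ hγ
    have h1 : coeff γ (∑ γ ∈ E.support, H γ * monomial γ 1) =
        if γ ∈ E.support then constantCoeff (H γ) else 0 := by
      rw [coeff_sum]
      have h2 : ∀ δ ∈ E.support, coeff γ (H δ * monomial δ 1) =
          if δ = γ then constantCoeff (H γ) else 0 := by
        intro δ hδ
        rw [coeff_mul_monomial']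
        by_cases hδγ : δ = γ
        · subst hδγ
          rw [if_pos rfl, if_pos le_rfl, mul_one, tsub_self]
          rfl
        · rw [if_neg hδγ, if_neg]
          intro hle
          obtain ⟨ε, hε⟩ := exists_add_of_le hle
          have h3 := hE δ (mem_support_iff.1 hδ)
          have h4 : Finsupp.degree ε = 0 := by
            rw [hε, map_add] at hγ
            omega
          rw [Finsupp.degree_eq_zero_iff] at h4
          rw [h4, add_zero] at hε
          exact hδγ hε.symm
      rw [Finset.sum_congr rfl h2, Finset.sum_ite_eq']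
    rw [h1]
    split_ifs with h2
    · rw [rh_eq h hb hD (hH γ h2)]
      rfl
    · rw [mem_support_iff, not_not] at h2
      rw [h2, map_zero, map_zero, zero_div]

/-- The parameters of the local ring of the point. -/
theorem Fra.blow (h : Fra Q ρ x) (hb : Blw x x' j) : Fra (nr Q x') (rh h hb) x' := by
  classical
  have hdvd : ∀ c : Q, ρ c = 0 → ∃ D : MvPolynomial (Fin n) Q, (c : K) = x' j * ev Q x' D := by
    intro c hc
    rw [hb.eq]
    exact h.dvd hb hc
  refine ⟨?_, ?_, x_mem_nr Q x', ?_, ?_⟩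
  · intro c
    obtain ⟨q, rfl⟩ := h.surj c
    exact ⟨⟨q, le_nr Q x' q.2⟩, rh_C h hb q rfl⟩
  · rintro ⟨z, hz⟩ hne
    obtain ⟨E, D, hD, he⟩ := hz
    rw [rh_eq h hb hD he] at hne
    have h1 : cc ρ E ≠ 0 := fun h0 => hne (by rw [h0, zero_div])
    refine ⟨D, E, (h.isUnit _).2 h1, ?_⟩
    change z⁻¹ = _
    rw [he, inv_div]
  · intro z
    constructor
    · intro h0
      obtain ⟨E, D, hD, he⟩ := z.2
      rw [rh_eq h hb hD he, div_eq_zero_iff] at h0
      have h1 : ρ (constantCoeff E) = 0 := h0.resolve_right (h.cc_ne hD)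
      obtain ⟨B, hB⟩ := hdvd _ h1
      obtain ⟨G, hG⟩ := exists_dec E
      have h2 : ∀ i, ev Q x' (G i + if i = j then B else 0) / ev Q x' D ∈ nr Q x' := fun i =>
        ⟨_, D, hD, rfl⟩
      refine ⟨fun i => ⟨_, h2 i⟩, ?_⟩
      change (z : K) = ∑ i, ev Q x' (G i + if i = j then B else 0) / ev Q x' D * x' i
      have h3 : ∀ i, ev Q x' (G i + if i = j then B else 0) / ev Q x' D * x' i =
          (ev Q x' (G i) * x' i + if i = j then ev Q x' B * x' j else 0) / ev Q x' D := by
        intro i
        rw [map_add]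
        split_ifs with hi
        · rw [hi]; ring
        · rw [map_zero]; ring
      rw [Finset.sum_congr rfl fun i _ => h3 i, ← Finset.sum_div, Finset.sum_add_distrib,
        Finset.sum_ite_eq' Finset.univ j, if_pos (Finset.mem_univ _), he]
      congr 1
      nth_rewrite 1 [hG]
      rw [map_add, ev_C, hB, map_sum, add_comm]
      congr 1
      · exact Finset.sum_congr rfl fun i _ => by rw [map_mul, ev_X]
      · ring
    · rintro ⟨c, hc⟩
      have h1 : z = ∑ i, c i * ⟨x' i, x_mem_nr Q x' i⟩ := by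
        apply Subtype.ext
        rw [hc]
        push_cast
        rfl
      rw [h1, map_sum]
      refine Finset.sum_eq_zero fun i _ => ?_
      rw [map_mul, rh_eq h hb (z := ⟨x' i, x_mem_nr Q x' i⟩) (E := X i) (D := 1)
        (by rw [map_one]; exact isUnit_one) (by rw [ev_X, map_one, div_one])]
      simp [cc]
  · intro m E hE h0
    obtain ⟨D, H, hD, hH, hev, hco⟩ := h.clear hb hE
    rw [h0, mul_zero] at hev
    have h1 := h.qb hb m H hH hev
    intro γ hγ
    by_contra hlt
    have h2 : Finsupp.degree γ = m := by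
      have := (hE.map (rh h hb)) γ hγ
      omega
    rw [coeff_map, hco γ h2] at hγ
    have h3 := h1.coeff_eq_zero (γ := γ) (by omega)
    rw [coeff_map] at h3
    rw [h3, zero_div] at hγ
    exact hγ rfl

end nr

end Pool.Agent.Q40.RP
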