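import Pool.Agent.Q40.RP.Base
import Pool.Agent.TH188.QS.Down3

/-!
# The valuation ring of a good branch and log uniformization
-/

set_option autoImplicit false
set_option linter.unusedVariables false
set_option linter.unusedSectionVars false

universe u v

namespace Pool.Agent.Q40.RP

open MvPolynomial IsLocalRing Pool.Agent.W418.LU2 Pool.Agent.TH188.QS

section val

variable {K : Type u} [Field K] {k : Type v} [Field k] {n : ℕ}
  {O : Subring K} {ρ0 : O →+* k} {S : Finset O} {piv : (Fin n → O) → Fin n}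

/-- Inverses. -/
lemma Gd.ic (hd : Dat O ρ0 S piv) {c : Fin n → O} (hc : IsLt S c) {s : Sta K n}
    (h : Gd O ρ0 s) {y : K} (hy : y ∈ s.1) (h0 : y ≠ 0) (hi : y⁻¹ ∈ (nx piv s c).1) :
    y⁻¹ ∈ s.1 := by
  obtain ⟨hO, ρ, hf, hρ⟩ := h
  obtain ⟨a, ha, ha', hac, hb⟩ := hd.step hc hO hf hρ
  by_contra hcon
  have h1 : ρ ⟨y, hy⟩ = 0 := by
    by_contra h2
    exact hcon (hf.inv _ h2)
  have h2 := rh_C (hf.lin ha) hb (z := ⟨y, le_nr _ _ hy⟩) ⟨y, hy⟩ rfl
  rw [h1] at h2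
  have h3 : (⟨y, le_nr _ _ hy⟩ : nr s.1 (stp (piv c) (fun i => (c i : K)) s.2)) *
      ⟨y⁻¹, hi⟩ = 1 := Subtype.ext (mul_inv_cancel₀ h0)
  have h4 := congrArg (rh (hf.lin ha) hb) h3
  rw [map_mul, h2, zero_mul, map_one] at h4
  exact zero_ne_one h4

/-- The parameters are not units. -/
lemma Gd.nu {s : Sta K n} (h : Gd O ρ0 s) (i : Fin n) : s.2 i ∈ s.1 ∧ s.2 i ≠ 0 ∧
    (s.2 i)⁻¹ ∉ s.1 := by
  obtain ⟨hO, ρ, hf, hρ⟩ := h
  refine ⟨hf.mem i, hf.ne i, fun hcon => ?_⟩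
  have h3 : (⟨s.2 i, hf.mem i⟩ : s.1) * ⟨(s.2 i)⁻¹, hcon⟩ = 1 :=
    Subtype.ext (mul_inv_cancel₀ (hf.ne i))
  have h4 := congrArg ρ h3
  rw [map_mul, hf.rho_x i, zero_mul, map_one] at h4
  exact zero_ne_one h4

/-- Nonunits are combinations of the parameters. -/
lemma Gd.comb {s : Sta K n} (h : Gd O ρ0 s) {y : K} (hy : y ∈ s.1) (hn : y = 0 ∨ y⁻¹ ∉ s.1) :
    ∃ c : Fin n → s.1, y = ∑ i, (c i : K) * s.2 i := by
  obtain ⟨hO, ρ, hf, hρ⟩ := h
  refine (hf.ker ⟨y, hy⟩).1 ?_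
  by_contra h1
  rcases hn with h2 | h2
  · subst h2
    apply h1
    have : (⟨0, hy⟩ : s.1) = 0 := rfl
    rw [this, map_zero]
  · exact h2 (hf.inv _ h1)

/-- The residue field does not change. -/
lemma Gd.res {s : Sta K n} (h : Gd O ρ0 s) (hs : Function.Surjective ρ0) {y : K} (hy : y ∈ s.1) :
    ∃ a : O, ∃ c : Fin n → s.1, y = a + ∑ i, (c i : K) * s.2 i := by
  obtain ⟨hO, ρ, hf, hρ⟩ := h
  obtain ⟨a, ha⟩ := hs (ρ ⟨y, hy⟩)
  refine ⟨a, ?_⟩
  obtain ⟨c, hc⟩ := (hf.ker (⟨y, hy⟩ - ⟨a, hO a.2⟩)).1 (by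
    rw [map_sub, hρ, ha, sub_self])
  refine ⟨c, ?_⟩
  rw [← hc]
  push_cast
  ring

variable {ω : ℕ → Fin n → O}

/-- The sequence of the local rings with parameters. -/
noncomputable def sq (piv : (Fin n → O) → Fin n) (s : Sta K n) (ω : ℕ → Fin n → O) : ℕ → Sta K n
  | 0 => s
  | l + 1 => nx piv (sq piv s ω l) (ω l)

lemma sq_eq (piv : (Fin n → O) → Fin n) (s : Sta K n) (ω : ℕ → Fin n → O) (l : ℕ) :
    sq piv s ω l = run piv s (List.ofFn fun i : Fin l => ω i) := by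
  induction l with
  | zero => rfl
  | succ l ih =>
    rw [List.ofFn_succ', List.concat_eq_append]
    unfold run at ih ⊢
    rw [List.foldl_append]
    simp only [List.foldl_cons, List.foldl_nil, Fin.val_castSucc, Fin.val_last]
    rw [← ih]
    rfl

variable (hd : Dat O ρ0 S piv) (hω : ∀ l, IsLt S (ω l)) {s0 : Sta K n} (h0 : Gd O ρ0 s0)

include hd hω h0

lemma sq_gd (l : ℕ) : Gd O ρ0 (sq piv s0 ω l) := by
  induction l with
  | zero => exact h0
  | succ l ih => exact ih.next hd (hω l)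

omit hd hω h0 in
lemma sq_mono : Monotone fun l => (sq piv s0 ω l).1 :=
  monotone_nat_of_le_succ fun l => le_nr _ _

lemma sq_ic {l l' : ℕ} (hl : l ≤ l') {y : K} (hy : y ∈ (sq piv s0 ω l).1) (hy0 : y ≠ 0)
    (hi : y⁻¹ ∈ (sq piv s0 ω l').1) : y⁻¹ ∈ (sq piv s0 ω l).1 := by
  induction l', hl using Nat.le_induction with
  | base => exact hi
  | succ l' hl ih =>
    refine ih ?_
    have h1 : y ∈ (sq piv s0 ω l').1 := sq_mono (piv := piv) (s0 := s0) (ω := ω) hl hy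
    exact (sq_gd hd hω h0 l').ic hd (hω l') h1 hy0 hi

lemma sq_mo {l l' : ℕ} (hl : l ≤ l') {y : K} (hy : Mo (sq piv s0 ω l).1 (sq piv s0 ω l).2 y) :
    Mo (sq piv s0 ω l').1 (sq piv s0 ω l').2 y := by
  induction l', hl using Nat.le_induction with
  | base => exact hy
  | succ l' hl ih => exact (sq_gd hd hω h0 l').mo hd (hω l') ih

lemma sq_pr {l l' : ℕ} (hl : l ≤ l') {J : Set K} (hy : Pr (sq piv s0 ω l) J) :
    Pr (sq piv s0 ω l') J := by
  induction l', hl using Nat.le_induction with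
  | base => exact hy
  | succ l' hl ih => exact (sq_gd hd hω h0 l').pr hd (hω l') ih

/-- The valuation ring. -/
theorem exists_val (hfr : ∀ z : K, ∃ a b : O, b ≠ 0 ∧ z = a / b)
    (hg : ∀ a b : O, b ≠ 0 → ∃ l, Pr (sq piv s0 ω l) {(a : K), (b : K)}) :
    ∃ V : ValuationSubring K, ∀ z, z ∈ V ↔ ∃ l, z ∈ (sq piv s0 ω l).1 := by
  have hmono := sq_mono (piv := piv) (s0 := s0) (ω := ω)
  refine ⟨{
    carrier := {z | ∃ l, z ∈ (sq piv s0 ω l).1}
    mul_mem' := ?_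
    one_mem' := ⟨0, one_mem _⟩
    add_mem' := ?_
    zero_mem' := ⟨0, zero_mem _⟩
    neg_mem' := ?_
    mem_or_inv_mem' := ?_ }, fun z => Iff.rfl⟩
  · rintro a b ⟨l, ha⟩ ⟨l', hb⟩
    exact ⟨max l l', mul_mem (hmono (le_max_left _ _) ha) (hmono (le_max_right _ _) hb)⟩
  · rintro a b ⟨l, ha⟩ ⟨l', hb⟩
    exact ⟨max l l', add_mem (hmono (le_max_left _ _) ha) (hmono (le_max_right _ _) hb)⟩
  · rintro a ⟨l, ha⟩
    exact ⟨l, neg_mem ha⟩
  · intro z
    obtain ⟨a, b, hb, rfl⟩ := hfr z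
    obtain ⟨l, f, hf, hm, hdiv⟩ := hg a b hb
    rcases hf with rfl | hf
    · right
      refine ⟨l, ?_⟩
      rw [inv_div]
      exact hdiv b (Or.inr rfl)
    · left
      rw [Set.mem_singleton_iff] at hf
      subst hf
      exact ⟨l, hdiv a (Or.inl rfl)⟩

end val

section lin

variable {K : Type u} [Field K] {A P : Subring K} {ι : Type} [Fintype ι] {x : ι → K}

/-- The linear change of regular parameters. -/
theorem regP_lin (h : RegP A P x) (hx : ∀ i, (x i)⁻¹ ∉ A) {j : ι} {a : ι → P} (ha : a j = 0)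
    (hne : ∀ i, x i - a i * x j ≠ 0) : RegP A P (fun i => x i - a i * x j) := by
  classical
  have hreg := h.reg
  have hmem : ∀ i, x i - a i * x j ∈ P := fun i =>
    P.sub_mem (h.mem i) (P.mul_mem (a i).2 (h.mem j))
  refine ⟨h.PA, hne, hmem, h.reg, h.inv, ?_⟩
  have hm : ∀ i, (⟨x i, h.mem i⟩ : P) ∈ maximalIdeal P := fun i => by
    rw [h.mem_max]
    exact fun h' => hx i h'.2
  have hxt : ∀ i, (⟨x i - a i * x j, hmem i⟩ : P) = ⟨x i, h.mem i⟩ - a i * ⟨x j, h.mem j⟩ :=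
    fun i => rfl
  intro c hc hs
  have h1 := h.ind (fun i => c i - if i = j then ∑ l, c l * a l else 0)
    (fun i hi => absurd (hm i) hi) (by
      have h2 : ∑ i, (c i - if i = j then ∑ l, c l * a l else 0) * (⟨x i, h.mem i⟩ : P) =
          ∑ i, c i * (⟨x i - a i * x j, hmem i⟩ : P) := by
        simp only [hxt, sub_mul, mul_sub, Finset.sum_sub_distrib, ite_mul, zero_mul,
          Finset.sum_ite_eq', Finset.mem_univ, if_true, Finset.sum_mul, mul_assoc]
      rw [h2]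
      exact hs)
  have h3 : ∀ i, i ≠ j → c i ∈ maximalIdeal P := by
    intro i hi
    have := h1 i
    rwa [if_neg hi, sub_zero] at this
  intro i
  by_cases hi : i = j
  · subst hi
    have h4 := h1 i
    rw [if_pos rfl] at h4
    have h5 : ∑ l, c l * a l ∈ maximalIdeal P := by
      refine Ideal.sum_mem _ fun l _ => ?_
      by_cases hl : l = i
      · rw [hl, ha, mul_zero]
        exact Ideal.zero_mem _
      · exact Ideal.mul_mem_right _ _ (h3 l hl)
    have h6 := Ideal.add_mem _ h4 h5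
    rwa [sub_add_cancel] at h6
  · exact h3 i hi

end lin

end Pool.Agent.Q40.RP
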